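import Pool.Agent.KS6_lead.Retract.Main

set_option autoImplicit false
set_option maxHeartbeats 2000000

namespace Pool.Agent.KS6_lead.Retract

open MvPolynomial Hs

section

variable {ι : Type} [Fintype ι] [DecidableEq ι] (i₀ : ι) (F : MvPolynomial ι ℤ)

/-- the span of `1` and `ee` -/
def InU (a : ℤ) (u : Aq ι) : Prop := ∃ c d : ℤ, u = c • (1 : Aq ι) + d • ee i₀ a

omit [Fintype ι] [DecidableEq ι] in
theorem ee_mul_ee (a : ℤ) : ee i₀ a * ee i₀ a = 0 := by
  simp [ee]

omit [Fintype ι] [DecidableEq ι] in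
theorem InU.mul {a : ℤ} {u v : Aq ι} (hu : InU i₀ a u) (hv : InU i₀ a v) :
    InU i₀ a (u * v) := by
  obtain ⟨c, d, rfl⟩ := hu
  obtain ⟨c', d', rfl⟩ := hv
  refine ⟨c * c', c * d' + d * c', ?_⟩
  have h := ee_mul_ee i₀ a
  have : (c • (1 : Aq ι) + d • ee i₀ a) * (c' • (1 : Aq ι) + d' • ee i₀ a) =
      (c * c') • (1 : Aq ι) + (c * d' + d * c') • ee i₀ a + (d * d') • (ee i₀ a * ee i₀ a) := by
    simp only [zsmul_eq_mul]
    push_cast
    ring
  rw [this, h]
  simp

omit [Fintype ι] [DecidableEq ι] in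
theorem InU.sub {a : ℤ} {u v : Aq ι} (hu : InU i₀ a u) (hv : InU i₀ a v) :
    InU i₀ a (u - v) := by
  obtain ⟨c, d, rfl⟩ := hu
  obtain ⟨c', d', rfl⟩ := hv
  refine ⟨c - c', d - d', ?_⟩
  simp only [sub_smul]
  abel

omit [Fintype ι] [DecidableEq ι] in
theorem fst_lin (a c d : ℤ) : (c • (1 : Aq ι) + d • ee i₀ a).fst = C c := by
  rw [TrivSqZeroExt.fst_add, TrivSqZeroExt.fst_smul, TrivSqZeroExt.fst_smul,
    TrivSqZeroExt.fst_one]
  simp [ee]

omit [Fintype ι] [DecidableEq ι] in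
theorem snd_lin (a c d : ℤ) : (c • (1 : Aq ι) + d • ee i₀ a).snd =
    C d * (C (1 + 3 * a) - 3 * X i₀) := by
  rw [TrivSqZeroExt.snd_add, TrivSqZeroExt.snd_smul, TrivSqZeroExt.snd_smul,
    TrivSqZeroExt.snd_one]
  simp [ee]

omit [Fintype ι] [DecidableEq ι] in
theorem lin_eq_zero {a c d : ℤ} (h : (c • (1 : Aq ι) + d • ee i₀ a).snd = 0) : d = 0 := by
  rw [snd_lin] at h
  have h0 := congrArg (eval (fun _ => (0 : ℤ))) h
  have h1 := congrArg (eval (fun _ => (1 : ℤ))) h
  simp at h0 h1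
  rcases h0 with h0 | h0
  · exact h0
  · rcases h1 with h1 | h1
    · exact h1
    · omega

omit [Fintype ι] [DecidableEq ι] in
theorem uniq (hex : ∃ x : ι → ℤ, eval x F = 0) {a c d : ℤ}
    (h : c • (1 : Aq ι) + d • ee i₀ a ∈ NN F) : c = 0 ∧ d = 0 := by
  obtain ⟨x, hx⟩ := hex
  rw [NN, AddSubgroup.mem_zmultiples_iff] at h
  obtain ⟨n, hn⟩ := h
  constructor
  · have h1 := congrArg (fun u => eval x (TrivSqZeroExt.fst u)) hn
    simp only [fst_lin, TrivSqZeroExt.fst_smul, TrivSqZeroExt.fst_inl] at h1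
    simpa [hx] using h1.symm
  · apply lin_eq_zero i₀ (a := a) (c := c) (d := d)
    rw [← hn, TrivSqZeroExt.snd_smul, TrivSqZeroExt.snd_inl, smul_zero]

omit [Fintype ι] [DecidableEq ι] in
theorem InU.eq_zero (hex : ∃ x : ι → ℤ, eval x F = 0) {a : ℤ} {u : Aq ι} (hu : InU i₀ a u)
    (h : u ∈ NN F) : u = 0 := by
  obtain ⟨c, d, rfl⟩ := hu
  obtain ⟨rfl, rfl⟩ := uniq i₀ F hex h
  simp

theorem mem_four (a : ℤ) (g : GG i₀ F) (hg : g ∈ Subgroup.closure (four i₀ F a)) :
    InU i₀ a (g : Hs (Aq ι) (NN F)).x ∧ InU i₀ a (g : Hs (Aq ι) (NN F)).y := by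
  induction hg using Subgroup.closure_induction with
  | mem y hy =>
    simp only [four, Set.mem_insert_iff, Set.mem_singleton_iff] at hy
    rcases hy with rfl | rfl | rfl | rfl
    · exact ⟨⟨1, 0, by simp [pG]⟩, ⟨0, 0, by simp [pG]⟩⟩
    · exact ⟨⟨0, 0, by simp [qG]⟩, ⟨1, 0, by simp [qG]⟩⟩
    · exact ⟨⟨0, 1, by simp [pG]⟩, ⟨0, 0, by simp [pG]⟩⟩
    · exact ⟨⟨0, 0, by simp [qG]⟩, ⟨0, 1, by simp [qG]⟩⟩
  | one => exact ⟨⟨0, 0, by simp⟩, ⟨0, 0, by simp⟩⟩
  | mul y z _ _ hy hz =>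
    obtain ⟨⟨c, d, h1⟩, ⟨c', d', h2⟩⟩ := hy
    obtain ⟨⟨k, l, h3⟩, ⟨k', l', h4⟩⟩ := hz
    refine ⟨⟨c + k, d + l, ?_⟩, ⟨c' + k', d' + l', ?_⟩⟩
    · simp only [Subgroup.coe_mul, mul_x, h1, h3, add_smul]
      abel
    · simp only [Subgroup.coe_mul, mul_y, h2, h4, add_smul]
      abel
  | inv y _ hy =>
    obtain ⟨⟨c, d, h1⟩, ⟨c', d', h2⟩⟩ := hy
    refine ⟨⟨-c, -d, ?_⟩, ⟨-c', -d', ?_⟩⟩
    · simp only [Subgroup.coe_inv, inv_x, h1, neg_smul]
      abel
    · simp only [Subgroup.coe_inv, inv_y, h2, neg_smul]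
      abel

theorem pG_add (u v : SS i₀ F) : pG i₀ F (u + v) = pG i₀ F u * pG i₀ F v :=
  Subtype.ext (p_add _ _)
theorem qG_add (u v : SS i₀ F) : qG i₀ F (u + v) = qG i₀ F u * qG i₀ F v :=
  Subtype.ext (q_add _ _)

/-- **Second direction**: a retraction gives a solution. -/
theorem solution_of_retract (a : ℤ) (hex : ∃ x : ι → ℤ, eval x F = 0)
    (r : GG i₀ F →* GG i₀ F) (hr : r.range = Subgroup.closure (four i₀ F a))
    (hfix : ∀ h ∈ Subgroup.closure (four i₀ F a), r h = h) :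
    ∃ x : ι → ℤ, x i₀ = a ∧ eval x F = 0 := by
  have hU : ∀ g : GG i₀ F, InU i₀ a (r g : Hs (Aq ι) (NN F)).x ∧
      InU i₀ a (r g : Hs (Aq ι) (NN F)).y := by
    intro g
    apply mem_four
    rw [← hr]
    exact ⟨g, rfl⟩
  let o : SS i₀ F := ⟨1, one_mem i₀ F⟩
  have hp1 : r (pG i₀ F o) = pG i₀ F o := hfix _ (Subgroup.subset_closure (by simp [four, o]))
  have hq1 : r (qG i₀ F o) = qG i₀ F o := hfix _ (Subgroup.subset_closure (by simp [four, o]))
  let e : SS i₀ F := ⟨ee i₀ a, ee_mem i₀ F a⟩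
  have hpe : r (pG i₀ F e) = pG i₀ F e := hfix _ (Subgroup.subset_closure (by simp [four, e]))
  have hy0 : ∀ u, (r (pG i₀ F u) : Hs (Aq ι) (NN F)).y = 0 := by
    intro u
    apply (hU _).2.eq_zero i₀ F hex
    have hc : pG i₀ F u * pG i₀ F o = pG i₀ F o * pG i₀ F u := by
      apply Subtype.ext
      ext <;> simp [pG, add_comm]
    have hc' := congrArg r hc
    rw [map_mul, map_mul, hp1] at hc'
    have hz := congrArg (fun g : GG i₀ F => (g : Hs (Aq ι) (NN F)).z) hc'
    simp [pG, o] at hz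
    exact hz
  have hx0 : ∀ u, (r (qG i₀ F u) : Hs (Aq ι) (NN F)).x = 0 := by
    intro u
    apply (hU _).1.eq_zero i₀ F hex
    have hc : qG i₀ F u * qG i₀ F o = qG i₀ F o * qG i₀ F u := by
      apply Subtype.ext
      ext <;> simp [qG, add_comm]
    have hc' := congrArg r hc
    rw [map_mul, map_mul, hq1] at hc'
    have hz := congrArg (fun g : GG i₀ F => (g : Hs (Aq ι) (NN F)).z) hc'
    simp [qG, o] at hz
    exact hz
  -- the linear map
  let Xh : SS i₀ F →+ Aq ι :=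
    { toFun := fun u => (r (pG i₀ F u) : Hs (Aq ι) (NN F)).x
      map_zero' := by
        have : pG i₀ F 0 = 1 := Subtype.ext (by ext <;> simp [pG])
        rw [this, map_one]
        rfl
      map_add' := fun u v => by rw [pG_add, map_mul]; rfl }
  have hXU : ∀ u, InU i₀ a (Xh u) := fun u => (hU _).1
  have key0 : ∀ u v u' v' : SS i₀ F, (u : Aq ι) * v - u' * v' ∈ NN F →
      Xh u * (r (qG i₀ F v) : Hs (Aq ι) (NN F)).y -
        Xh u' * (r (qG i₀ F v') : Hs (Aq ι) (NN F)).y ∈ NN F := by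
    intro u v u' v' h
    have h1 : pG i₀ F u * qG i₀ F v * (pG i₀ F u)⁻¹ * (qG i₀ F v)⁻¹ =
        pG i₀ F u' * qG i₀ F v' * (pG i₀ F u')⁻¹ * (qG i₀ F v')⁻¹ := by
      apply Subtype.ext
      simp only [Subgroup.coe_mul, Subgroup.coe_inv, comm_eq]
      congr 1
      simp only [pG, qG, p_x, p_y, q_x, q_y, mul_zero, sub_zero]
      rw [← sub_eq_zero, ← map_sub]
      exact (QuotientAddGroup.eq_zero_iff _).2 h
    have h2 := congrArg r h1
    simp only [map_mul, map_inv] at h2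
    have h3 := congrArg (fun g : GG i₀ F => (g : Hs (Aq ι) (NN F))) h2
    simp only [Subgroup.coe_mul, Subgroup.coe_inv, comm_eq] at h3
    have h4 := congrArg Hs.z h3
    simp only [Z_z, hy0, hx0, mul_zero, sub_zero] at h4
    rw [← sub_eq_zero, ← map_sub] at h4
    exact (QuotientAddGroup.eq_zero_iff _).1 h4
  have hXo : Xh o = 1 := by
    change (r (pG i₀ F o) : Hs (Aq ι) (NN F)).x = 1
    rw [hp1]
    rfl
  have hYo : (r (qG i₀ F o) : Hs (Aq ι) (NN F)).y = 1 := by
    rw [hq1]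
    rfl
  have hXe : Xh e = ee i₀ a := by
    change (r (pG i₀ F e) : Hs (Aq ι) (NN F)).x = ee i₀ a
    rw [hpe]
    rfl
  have hXY : ∀ u, (r (qG i₀ F u) : Hs (Aq ι) (NN F)).y = Xh u := by
    intro u
    have h := key0 u o o u (by
      have : (u : Aq ι) * (o : SS i₀ F) - (o : SS i₀ F) * u = 0 := by
        simp [o]
      rw [this]
      exact (NN F).zero_mem)
    rw [hXo, hYo, mul_one, one_mul] at h
    have := ((hXU u).sub i₀ (hU (qG i₀ F u)).2).eq_zero i₀ F hex h
    exact (sub_eq_zero.1 this).symm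
  have key : ∀ u v u' v' : SS i₀ F, (u : Aq ι) * v - u' * v' ∈ NN F →
      Xh u * Xh v = Xh u' * Xh v' := by
    intro u v u' v' h
    have h1 := key0 u v u' v' h
    rw [hXY, hXY] at h1
    have := (((hXU u).mul i₀ (hXU v)).sub i₀ ((hXU u').mul i₀ (hXU v'))).eq_zero i₀ F hex h1
    exact sub_eq_zero.1 this
  -- the integral part
  let α : SS i₀ F →+ ℤ := (constantCoeff (σ := ι) (R := ℤ)).toAddMonoidHom.comp
    ((TrivSqZeroExt.fstHom ℤ (MvPolynomial ι ℤ) (MvPolynomial ι ℤ)).toRingHom.toAddMonoidHom.comp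
      Xh)
  have hα : ∀ u, (Xh u).fst = C (α u) := by
    intro u
    obtain ⟨c, d, h⟩ := hXU u
    have h1 : (Xh u).fst = C c := by rw [h, fst_lin]
    have h2 : α u = constantCoeff (Xh u).fst := rfl
    rw [h2, h1, constantCoeff_C]
  have hmul : ∀ u v w : SS i₀ F, (u : Aq ι) * v = w → α u * α v = α w := by
    intro u v w h
    have h1 := key u v w o (by
      rw [h]
      simp only [o, mul_one, sub_self]
      exact (NN F).zero_mem)
    rw [hXo, mul_one] at h1
    have h2 := congrArg TrivSqZeroExt.fst h1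
    rw [TrivSqZeroExt.fst_mul, hα, hα, hα, ← C_mul] at h2
    exact C_injective _ _ h2
  have hsingle : ∀ i, (Finsupp.single i 1 : ι →₀ ℕ) ≤ bound F := by
    intro i j
    rw [bound, Finsupp.add_apply]
    by_cases hij : i = j
    · subst hij
      simp
    · simp [hij]
  let x : ι → ℤ := fun i => α ⟨_, mono_mem i₀ F (hsingle i)⟩
  have hmono : ∀ (n : ℕ) (μ : ι →₀ ℕ) (h : μ ≤ bound F), μ.degree = n →
      α ⟨_, mono_mem i₀ F h⟩ = eval x (monomial μ 1) := by
    intro n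
    induction n with
    | zero =>
      intro μ h hμ
      have : μ = 0 := (Finsupp.degree_eq_zero_iff μ).1 hμ
      subst this
      have h1 : (⟨_, mono_mem i₀ F h⟩ : SS i₀ F) = o := by
        apply Subtype.ext
        simp [o]
      rw [h1]
      have h2 := hα o
      rw [hXo, TrivSqZeroExt.fst_one, ← C_1] at h2
      have h3 := C_injective _ _ h2
      rw [← h3]
      simp
    | succ n ih =>
      intro μ h hμ
      have hne : μ ≠ 0 := by
        rintro rfl
        simp at hμ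
      obtain ⟨i, hi⟩ := Finsupp.ne_iff.1 hne
      have hle : Finsupp.single i 1 ≤ μ := by
        rw [Finsupp.single_le_iff]
        exact Nat.one_le_iff_ne_zero.2 hi
      obtain ⟨μ', rfl⟩ := exists_add_of_le hle
      have h' : μ' ≤ bound F := le_trans (by simp) h
      have hd : μ'.degree = n := by
        rw [map_add, Finsupp.degree_single] at hμ
        omega
      have h1 := hmul ⟨_, mono_mem i₀ F (hsingle i)⟩ ⟨_, mono_mem i₀ F h'⟩ ⟨_, mono_mem i₀ F h⟩ (by
        simp only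
        rw [← TrivSqZeroExt.inl_mul, monomial_mul, one_mul])
      rw [← h1, ih μ' h' hd]
      rw [show (monomial (Finsupp.single i 1 + μ') (1 : ℤ)) =
        monomial (Finsupp.single i 1) 1 * monomial μ' 1 by rw [monomial_mul, one_mul], map_mul]
      congr 1
      change x i = _
      simp [eval_monomial, Finsupp.prod_single_index]
  let T : AddSubgroup (MvPolynomial ι ℤ) :=
    { carrier := {f | ∃ h : (TrivSqZeroExt.inl f : Aq ι) ∈ SS i₀ F, α ⟨_, h⟩ = eval x f}
      zero_mem' := by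
        refine ⟨by simp, ?_⟩
        rw [map_zero (eval x)]
        convert map_zero α
        simp
      add_mem' := by
        rintro f g ⟨h1, h2⟩ ⟨h3, h4⟩
        refine ⟨by rw [TrivSqZeroExt.inl_add]; exact (SS i₀ F).add_mem h1 h3, ?_⟩
        rw [map_add (eval x), ← h2, ← h4, ← map_add α]
        congr 1
      neg_mem' := by
        rintro f ⟨h1, h2⟩
        refine ⟨by rw [TrivSqZeroExt.inl_neg]; exact (SS i₀ F).neg_mem h1, ?_⟩
        rw [map_neg (eval x), ← h2, ← map_neg α]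
        congr 1 }
  have hT : F ∈ T := by
    rw [← F.support_sum_monomial_coeff]
    refine T.sum_mem fun μ hμ => ?_
    have h1 : μ ≤ bound F := by
      rw [bound]
      exact le_trans (Finset.le_sup (f := id) hμ) (by simp)
    have h2 : (monomial μ 1 : MvPolynomial ι ℤ) ∈ T := ⟨mono_mem i₀ F h1, hmono _ μ h1 rfl⟩
    have h3 : (monomial μ (coeff μ F) : MvPolynomial ι ℤ) = coeff μ F • monomial μ 1 := by
      rw [smul_monomial, smul_eq_mul, mul_one]
    rw [h3]
    exact T.zsmul_mem h2 _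
  obtain ⟨hFS, hFe⟩ := hT
  have hX0 : Xh ⟨_, hFS⟩ = 0 := by
    have h := key ⟨_, hFS⟩ o 0 o (by
      simp only [o, mul_one, AddSubgroup.coe_zero, sub_zero]
      exact AddSubgroup.mem_zmultiples _)
    rw [hXo, mul_one, map_zero, zero_mul] at h
    exact h
  refine ⟨x, ?_, ?_⟩
  · -- the parameter
    let σ : SS i₀ F := ⟨_, s_mem i₀ F⟩
    let τ : SS i₀ F := ⟨_, t_mem i₀ F⟩
    have hsq : ∀ u : SS i₀ F, (u : Aq ι) * u = 0 → ∃ d : ℤ, Xh u = d • ee i₀ a := by
      intro u hu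
      obtain ⟨c, d, h⟩ := hXU u
      have h1 := key u u 0 0 (by
        rw [hu]
        simp only [AddSubgroup.coe_zero, mul_zero, sub_zero]
        exact (NN F).zero_mem)
      rw [map_zero, mul_zero] at h1
      have h2 := congrArg TrivSqZeroExt.fst h1
      rw [TrivSqZeroExt.fst_mul, TrivSqZeroExt.fst_zero, h, fst_lin, ← C_mul] at h2
      have h3 : c * c = 0 := by
        have := C_injective ι ℤ (h2.trans C_0.symm)
        exact this
      have h4 : c = 0 := by simpa using h3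
      subst h4
      exact ⟨d, by rw [h]; simp⟩
    obtain ⟨d, hd⟩ := hsq σ (by simp [σ])
    obtain ⟨d', hd'⟩ := hsq τ (by simp [τ])
    have h1 := key o τ ⟨_, mono_mem i₀ F (hsingle i₀)⟩ σ (by
      have : (o : Aq ι) * τ - (TrivSqZeroExt.inl (monomial (Finsupp.single i₀ 1) 1) : Aq ι) * σ
          = 0 := by
        rw [sub_eq_zero]
        apply TrivSqZeroExt.ext
        · simp [o, τ, σ]
        · simp [o, τ, σ, X]
      rw [this]
      exact (NN F).zero_mem)
    obtain ⟨c₁, d₁, h₁⟩ := hXU ⟨_, mono_mem i₀ F (hsingle i₀)⟩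
    have hc₁ : c₁ = x i₀ := by
      have h2 := hα ⟨_, mono_mem i₀ F (hsingle i₀)⟩
      rw [h₁, fst_lin] at h2
      exact C_injective _ _ h2
    rw [hXo, one_mul, hd', hd, h₁] at h1
    have h5 : (c₁ • (1 : Aq ι) + d₁ • ee i₀ a) * (d • ee i₀ a) = (c₁ * d) • ee i₀ a +
        (d₁ * d) • (ee i₀ a * ee i₀ a) := by
      simp only [zsmul_eq_mul]
      push_cast
      ring
    rw [h5, ee_mul_ee, smul_zero, add_zero] at h1
    have hinj : ∀ k l : ℤ, k • ee i₀ a = l • ee i₀ a → k = l := by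
      intro k l hkl
      have : ((0 : ℤ) • (1 : Aq ι) + (k - l) • ee i₀ a).snd = 0 := by
        rw [sub_smul, hkl]
        simp
      have := lin_eq_zero i₀ this
      omega
    have h6 := hinj _ _ h1
    have h7 : e = (1 + 3 * a) • σ + (-3 : ℤ) • τ := by
      apply Subtype.ext
      exact ee_eq i₀ a
    have h8 : ee i₀ a = ((1 + 3 * a) * d + (-3) * d') • ee i₀ a := by
      have := congrArg Xh h7
      rw [hXe, map_add, map_zsmul, map_zsmul, hd, hd', smul_smul, smul_smul, ← add_smul] at this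
      exact this
    have h9 : 1 = (1 + 3 * a) * d + (-3) * d' := hinj _ _ ((one_smul ℤ _).trans h8)
    rw [h6, hc₁] at h9
    have h10 : (1 + 3 * (a - x i₀)) * d = 1 := by
      linear_combination (-1 : ℤ) * h9
    have h11 := Int.isUnit_iff.1 (IsUnit.of_mul_eq_one _ h10)
    omega
  · rw [← hFe]
    have h2 := hα ⟨_, hFS⟩
    rw [hX0, TrivSqZeroExt.fst_zero, ← C_0] at h2
    exact (C_injective _ _ h2).symm

end

end Pool.Agent.KS6_lead.Retract
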