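import Mathlib
import Pool.Graph.R_seed8.Helper844.DPRM

set_option autoImplicit false

namespace Pool.Agent.KS6_lead.Retract

open MvPolynomial

/-- Every `Poly` of Mathlib is the evaluation of a multivariate polynomial. -/
theorem exists_mvPoly {α : Type} (p : Poly α) :
    ∃ Q : MvPolynomial α ℤ, ∀ t : α → ℕ, p t = eval (fun i => (t i : ℤ)) Q := by
  refine Poly.induction (C := fun p => ∃ Q : MvPolynomial α ℤ, ∀ t : α → ℕ,
    p t = eval (fun i => (t i : ℤ)) Q) ?_ ?_ ?_ ?_ p
  · intro i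
    exact ⟨X i, fun t => by simp⟩
  · intro n
    exact ⟨C n, fun t => by simp⟩
  · rintro f g ⟨Q, hQ⟩ ⟨R, hR⟩
    exact ⟨Q - R, fun t => by simp [hQ, hR]⟩
  · rintro f g ⟨Q, hQ⟩ ⟨R, hR⟩
    exact ⟨Q * R, fun t => by simp [hQ, hR]⟩

/-- An undecidable family of polynomial equations in integers with one parameter. -/
theorem exists_family : ∃ (S : ℕ → Prop) (ι : Type) (_ : Fintype ι) (_ : DecidableEq ι) (i₀ : ι)
    (P : MvPolynomial ι ℤ), ¬ ComputablePred S ∧ (∃ n, S n) ∧
      ∀ n : ℕ, S n ↔ ∃ x : ι → ℤ, x i₀ = n ∧ eval x P = 0 := by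
  classical
  let S : ℕ → Prop := fun n => ((Nat.Partrec.Code.eval
    (Denumerable.ofNat Nat.Partrec.Code n)) 0).Dom
  have hre : REPred S := by
    have h1 : Partrec fun n : ℕ => Nat.Partrec.Code.eval (Denumerable.ofNat Nat.Partrec.Code n) 0 :=
      Nat.Partrec.Code.eval_part.comp (Computable.ofNat Nat.Partrec.Code) (Computable.const 0)
    exact h1.dom_re
  have hnc : ¬ ComputablePred S := by
    intro h
    refine ComputablePred.halting_problem 0 ?_
    have : ManyOneReducible (fun c : Nat.Partrec.Code => (Nat.Partrec.Code.eval c 0).Dom) S := by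
      refine ⟨Encodable.encode, Computable.encode, ?_⟩
      intro c
      simp [S, Denumerable.ofNat_encode]
    exact ComputablePred.computable_of_manyOneReducible this h
  have hex : ∃ n, S n := by
    by_contra hno
    push Not at hno
    apply hnc
    have : S = fun _ => False := by
      funext n
      exact propext ⟨fun h => hno n h, fun h => h.elim⟩
    rw [this]
    exact ComputablePred.computable_iff.2 ⟨fun _ => false, Computable.const false, by
      funext n; simp⟩
  obtain ⟨δ, _, p, hp⟩ := Pool.Agent.Helper844.Dio.finite_dummies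
    (Pool.Agent.Helper844.Dio.dprm hre)
  obtain ⟨Q, hQ⟩ := exists_mvPoly p
  let g : Unit ⊕ δ → MvPolynomial (Unit ⊕ (δ × Fin 4)) ℤ :=
    Sum.elim (fun _ => X (Sum.inl ())) (fun d => ∑ k : Fin 4, X (Sum.inr (d, k)) ^ 2)
  refine ⟨S, Unit ⊕ (δ × Fin 4), inferInstance, inferInstance, Sum.inl (), bind₁ g Q, hnc, hex,
    fun n => ?_⟩
  have h := hp (fun _ => n)
  rw [show ((fun _ => n) ∈ {v : Unit → ℕ | S (v ())} ↔ S n) from Iff.rfl] at h
  rw [h]
  have hev : ∀ x : Unit ⊕ (δ × Fin 4) → ℤ, eval x (bind₁ g Q) =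
      eval (Sum.elim (fun _ => x (Sum.inl ())) (fun d => ∑ k : Fin 4, x (Sum.inr (d, k)) ^ 2)) Q := by
    intro x
    rw [← MvPolynomial.coe_aeval_eq_eval, ← MvPolynomial.coe_aeval_eq_eval]
    simp only [RingHom.coe_coe]
    rw [aeval_bind₁]
    congr 2
    funext i
    rcases i with i | d
    · simp [g]
    · simp [g]
  constructor
  · rintro ⟨t, ht⟩
    have h4 : ∀ d, ∃ y : Fin 4 → ℤ, (t d : ℤ) = ∑ k, y k ^ 2 := by
      intro d
      obtain ⟨a, b, c, e, habce⟩ := Nat.sum_four_squares (t d)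
      refine ⟨![a, b, c, e], ?_⟩
      rw [← habce]
      simp [Fin.sum_univ_four]
    choose y hy using h4
    refine ⟨Sum.elim (fun _ => (n : ℤ)) (fun dk => y dk.1 dk.2), rfl, ?_⟩
    rw [hev, ← ht, hQ]
    congr 2
    funext i
    rcases i with i | d
    · simp
    · simp [hy]
  · rintro ⟨x, hx, hP⟩
    refine ⟨fun d => (∑ k : Fin 4, x (Sum.inr (d, k)) ^ 2).toNat, ?_⟩
    rw [hev] at hP
    rw [hQ, ← hP]
    congr 2
    funext i
    rcases i with i | d
    · simp [hx]
    · have : 0 ≤ ∑ k : Fin 4, x (Sum.inr (d, k)) ^ 2 := Finset.sum_nonneg fun k _ => sq_nonneg _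
      simp only [Sum.elim_inr]
      exact Int.toNat_of_nonneg this

end Pool.Agent.KS6_lead.Retract
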