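import Mathlib

set_option autoImplicit false

namespace Pool.Agent.KS6_lead.Retract

/-- The Heisenberg group of a commutative ring `A` with the centre `A` replaced by `A ⧸ N`. -/
@[ext] structure Hs (A : Type) [CommRing A] (N : AddSubgroup A) where
  x : A
  y : A
  z : A ⧸ N

namespace Hs

variable {A : Type} [CommRing A] {N : AddSubgroup A}

/-- the quotient map -/
abbrev m (N : AddSubgroup A) : A →+ A ⧸ N := QuotientAddGroup.mk' N

instance : Mul (Hs A N) := ⟨fun a b => ⟨a.x + b.x, a.y + b.y, a.z + b.z + m N (a.x * b.y)⟩⟩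
instance : One (Hs A N) := ⟨⟨0, 0, 0⟩⟩
instance : Inv (Hs A N) := ⟨fun a => ⟨-a.x, -a.y, -a.z + m N (a.x * a.y)⟩⟩

@[simp] theorem mul_x (a b : Hs A N) : (a * b).x = a.x + b.x := rfl
@[simp] theorem mul_y (a b : Hs A N) : (a * b).y = a.y + b.y := rfl
@[simp] theorem mul_z (a b : Hs A N) : (a * b).z = a.z + b.z + m N (a.x * b.y) := rfl
@[simp] theorem one_x : (1 : Hs A N).x = 0 := rfl
@[simp] theorem one_y : (1 : Hs A N).y = 0 := rfl
@[simp] theorem one_z : (1 : Hs A N).z = 0 := rfl
@[simp] theorem inv_x (a : Hs A N) : (a⁻¹).x = -a.x := rfl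
@[simp] theorem inv_y (a : Hs A N) : (a⁻¹).y = -a.y := rfl
@[simp] theorem inv_z (a : Hs A N) : (a⁻¹).z = -a.z + m N (a.x * a.y) := rfl

instance : Group (Hs A N) :=
  Group.ofLeftAxioms
    (fun a b c => by
      ext
      · simp [add_assoc]
      · simp [add_assoc]
      · simp only [mul_z, mul_x, mul_y, add_mul, mul_add, map_add]
        abel)
    (fun a => by
      ext
      · simp
      · simp
      · simp)
    (fun a => by
      ext
      · simp
      · simp
      · simp only [mul_z, inv_x, inv_z, one_z, neg_mul, map_neg]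
        abel)

/-- projection to the two first coordinates -/
def pr : Hs A N →* Multiplicative (A × A) where
  toFun a := Multiplicative.ofAdd (a.x, a.y)
  map_one' := rfl
  map_mul' _ _ := rfl

theorem nilp : Group.IsNilpotent (Hs A N) := by
  refine Subgroup.isNilpotent_of_ker_le_center (pr : Hs A N →* _) ?_
  intro a ha
  rw [MonoidHom.mem_ker] at ha
  have hx : a.x = 0 := congrArg (fun t => (Multiplicative.toAdd t).1) ha
  have hy : a.y = 0 := congrArg (fun t => (Multiplicative.toAdd t).2) ha
  rw [Subgroup.mem_center_iff]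
  intro g
  ext
  · simp [hx]
  · simp [hy]
  · simp [hx, hy, add_comm]

/-- first generators -/
def P : Multiplicative A →* Hs A N where
  toFun u := ⟨Multiplicative.toAdd u, 0, 0⟩
  map_one' := rfl
  map_mul' a b := by ext <;> simp

/-- second generators -/
def Q : Multiplicative A →* Hs A N where
  toFun u := ⟨0, Multiplicative.toAdd u, 0⟩
  map_one' := rfl
  map_mul' a b := by ext <;> simp

/-- central elements -/
def Z (w : A ⧸ N) : Hs A N := ⟨0, 0, w⟩

/-- `p_u` -/
def p (N : AddSubgroup A) (u : A) : Hs A N := ⟨u, 0, 0⟩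
/-- `q_u` -/
def q (N : AddSubgroup A) (u : A) : Hs A N := ⟨0, u, 0⟩

@[simp] theorem p_x (u : A) : (p N u).x = u := rfl
@[simp] theorem p_y (u : A) : (p N u).y = 0 := rfl
@[simp] theorem p_z (u : A) : (p N u).z = 0 := rfl
@[simp] theorem q_x (u : A) : (q N u).x = 0 := rfl
@[simp] theorem q_y (u : A) : (q N u).y = u := rfl
@[simp] theorem q_z (u : A) : (q N u).z = 0 := rfl
@[simp] theorem Z_x (u : A ⧸ N) : (Z u).x = 0 := rfl
@[simp] theorem Z_y (u : A ⧸ N) : (Z u).y = 0 := rfl
@[simp] theorem Z_z (u : A ⧸ N) : (Z u).z = u := rfl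

theorem p_add (u v : A) : p N (u + v) = p N u * p N v := by ext <;> simp
theorem q_add (u v : A) : q N (u + v) = q N u * q N v := by ext <;> simp

theorem p_zsmul (k : ℤ) (u : A) : p N (k • u) = p N u ^ k :=
  map_zpow (P : Multiplicative A →* Hs A N) (Multiplicative.ofAdd u) k
theorem q_zsmul (k : ℤ) (u : A) : q N (k • u) = q N u ^ k :=
  map_zpow (Q : Multiplicative A →* Hs A N) (Multiplicative.ofAdd u) k

theorem comm_eq (a b : Hs A N) : a * b * a⁻¹ * b⁻¹ = Z (m N (a.x * b.y - b.x * a.y)) := by
  ext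
  · simp
  · simp
  · simp only [mul_z, mul_x, inv_x, inv_y, inv_z, Z_z, map_sub]
    simp only [← map_sub]
    have : ∀ s t : A ⧸ N, ∀ u v w k l : A, s + t + m N u + (-s + m N v) + m N w + (-t + m N k) +
      m N l = m N (u + v + w + k + l) := by
      intro s t u v w k l
      simp only [map_add]
      abel
    rw [this]
    congr 1
    ring

/-- the endomorphism induced by an endomorphism of the ring -/
def map (X : A →+* A) (h : N ≤ N.comap X.toAddMonoidHom) : Hs A N →* Hs A N where
  toFun a := ⟨X a.x, X a.y, QuotientAddGroup.map N N X.toAddMonoidHom h a.z⟩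
  map_one' := by ext <;> simp
  map_mul' a b := by
    ext
    · simp
    · simp
    · simp only [mul_z, map_add]
      congr 1
      simp

@[simp] theorem map_p (X : A →+* A) (h : N ≤ N.comap X.toAddMonoidHom) (u : A) :
    map X h (p N u) = p N (X u) := by
  ext <;> simp [map]
@[simp] theorem map_q (X : A →+* A) (h : N ≤ N.comap X.toAddMonoidHom) (u : A) :
    map X h (q N u) = q N (X u) := by
  ext <;> simp [map]

end Hs

end Pool.Agent.KS6_lead.Retract
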