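import Pool.Agent.KS6_lead.Retract.H10
import Pool.Agent.KS6_lead.Retract.Heis

set_option autoImplicit false

namespace Pool.Agent.KS6_lead.Retract

open MvPolynomial Hs

/-- the ring of dual numbers over the polynomial ring -/
abbrev Aq (ι : Type) := TrivSqZeroExt (MvPolynomial ι ℤ) (MvPolynomial ι ℤ)

section

variable {ι : Type} [Fintype ι] [DecidableEq ι] (i₀ : ι) (F : MvPolynomial ι ℤ)

/-- the multiples of the polynomial -/
noncomputable def NN : AddSubgroup (Aq ι) := AddSubgroup.zmultiples (TrivSqZeroExt.inl F)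

/-- bound for the exponents -/
noncomputable def bound : ι →₀ ℕ :=
  F.support.sup id + Finsupp.equivFunOnFinite.symm (fun _ => 1)

/-- index set of the generators -/
abbrev Idx := {μ : ι →₀ ℕ // μ ∈ Finset.Iic (bound F)} ⊕ Fin 2

/-- the elements of the ring used as generators -/
noncomputable def El : Idx F → Aq ι
  | Sum.inl μ => TrivSqZeroExt.inl (monomial μ.1 1)
  | Sum.inr 0 => TrivSqZeroExt.inr 1
  | Sum.inr 1 => TrivSqZeroExt.inr (X i₀)

/-- the span of the generators -/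
noncomputable def SS : AddSubgroup (Aq ι) := AddSubgroup.closure (Set.range (El i₀ F))

/-- generators of the group -/
noncomputable def gen : Idx F ⊕ Idx F → Hs (Aq ι) (NN F)
  | Sum.inl k => p _ (El i₀ F k)
  | Sum.inr k => q _ (El i₀ F k)

/-- the group -/
noncomputable def GG : Subgroup (Hs (Aq ι) (NN F)) := Subgroup.closure (Set.range (gen i₀ F))

theorem p_mem {u : Aq ι} (hu : u ∈ SS i₀ F) : p (NN F) u ∈ GG i₀ F := by
  induction hu using AddSubgroup.closure_induction with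
  | mem x hx =>
    obtain ⟨k, rfl⟩ := hx
    exact Subgroup.subset_closure ⟨Sum.inl k, rfl⟩
  | zero => exact (GG i₀ F).one_mem
  | add x y _ _ hx hy => rw [p_add]; exact (GG i₀ F).mul_mem hx hy
  | neg x _ hx =>
    have : p (NN F) (-x) = (p (NN F) x)⁻¹ := by
      have := p_zsmul (N := NN F) (-1) x
      simpa using this
    rw [this]
    exact (GG i₀ F).inv_mem hx

theorem q_mem {u : Aq ι} (hu : u ∈ SS i₀ F) : q (NN F) u ∈ GG i₀ F := by
  induction hu using AddSubgroup.closure_induction with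
  | mem x hx =>
    obtain ⟨k, rfl⟩ := hx
    exact Subgroup.subset_closure ⟨Sum.inr k, rfl⟩
  | zero => exact (GG i₀ F).one_mem
  | add x y _ _ hx hy => rw [q_add]; exact (GG i₀ F).mul_mem hx hy
  | neg x _ hx =>
    have : q (NN F) (-x) = (q (NN F) x)⁻¹ := by
      have := q_zsmul (N := NN F) (-1) x
      simpa using this
    rw [this]
    exact (GG i₀ F).inv_mem hx

/-- The element of the ring with parameter `a`. -/
noncomputable def ee (a : ℤ) : Aq ι := TrivSqZeroExt.inr (C (1 + 3 * a) - 3 * X i₀)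

theorem ee_eq (a : ℤ) : ee i₀ a = (1 + 3 * a) • (TrivSqZeroExt.inr 1 : Aq ι) +
    (-3 : ℤ) • (TrivSqZeroExt.inr (X i₀) : Aq ι) := by
  apply TrivSqZeroExt.ext
  · simp [ee]
  · rw [ee, TrivSqZeroExt.snd_add, TrivSqZeroExt.snd_smul, TrivSqZeroExt.snd_smul,
      TrivSqZeroExt.snd_inr, TrivSqZeroExt.snd_inr, TrivSqZeroExt.snd_inr, zsmul_eq_mul,
      zsmul_eq_mul]
    push_cast
    simp
    ring

theorem one_mem : (1 : Aq ι) ∈ SS i₀ F := by
  have : (1 : Aq ι) = El i₀ F (Sum.inl ⟨0, by simp⟩) := by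
    simp [El]
  rw [this]
  exact AddSubgroup.subset_closure ⟨_, rfl⟩

theorem s_mem : (TrivSqZeroExt.inr 1 : Aq ι) ∈ SS i₀ F :=
  AddSubgroup.subset_closure ⟨Sum.inr 0, rfl⟩

theorem t_mem : (TrivSqZeroExt.inr (X i₀) : Aq ι) ∈ SS i₀ F :=
  AddSubgroup.subset_closure ⟨Sum.inr 1, rfl⟩

theorem ee_mem (a : ℤ) : ee i₀ a ∈ SS i₀ F := by
  rw [ee_eq]
  exact (SS i₀ F).add_mem ((SS i₀ F).zsmul_mem (s_mem i₀ F) _)
    ((SS i₀ F).zsmul_mem (t_mem i₀ F) _)

theorem mono_mem {μ : ι →₀ ℕ} (h : μ ≤ bound F) :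
    (TrivSqZeroExt.inl (monomial μ 1) : Aq ι) ∈ SS i₀ F :=
  AddSubgroup.subset_closure ⟨Sum.inl ⟨μ, Finset.mem_Iic.2 h⟩, rfl⟩

/-- elements of the group -/
noncomputable def pG (u : SS i₀ F) : GG i₀ F := ⟨p _ u.1, p_mem i₀ F u.2⟩
/-- elements of the group -/
noncomputable def qG (u : SS i₀ F) : GG i₀ F := ⟨q _ u.1, q_mem i₀ F u.2⟩

/-- four generators -/
noncomputable def four (a : ℤ) : Set (GG i₀ F) :=
  {pG i₀ F ⟨1, one_mem i₀ F⟩, qG i₀ F ⟨1, one_mem i₀ F⟩,
    pG i₀ F ⟨ee i₀ a, ee_mem i₀ F a⟩, qG i₀ F ⟨ee i₀ a, ee_mem i₀ F a⟩}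

theorem GG_le_of (K : Subgroup (Hs (Aq ι) (NN F)))
    (h1 : ∀ k, p _ (El i₀ F k) ∈ K) (h2 : ∀ k, q _ (El i₀ F k) ∈ K) : GG i₀ F ≤ K := by
  rw [GG, Subgroup.closure_le]
  rintro _ ⟨k | k, rfl⟩
  · exact h1 k
  · exact h2 k

/-- The ring endomorphism given by an integer point. -/
noncomputable def XX (x : ι → ℤ) (a : ℤ) : Aq ι →+* Aq ι where
  toFun u := TrivSqZeroExt.inl (C (eval x u.fst)) +
    TrivSqZeroExt.inr (C (eval x u.snd) * (C (1 + 3 * a) - 3 * X i₀))
  map_one' := by apply TrivSqZeroExt.ext <;> simp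
  map_zero' := by apply TrivSqZeroExt.ext <;> simp
  map_add' u v := by
    apply TrivSqZeroExt.ext
    · simp
    · simp only [TrivSqZeroExt.snd_add, TrivSqZeroExt.snd_inl, TrivSqZeroExt.snd_inr, map_add]
      ring
  map_mul' u v := by
    apply TrivSqZeroExt.ext
    · simp
    · simp only [TrivSqZeroExt.snd_add, TrivSqZeroExt.snd_inl, TrivSqZeroExt.snd_inr, map_add,
        TrivSqZeroExt.snd_mul, TrivSqZeroExt.fst_add, TrivSqZeroExt.fst_inl,
        TrivSqZeroExt.fst_inr, map_mul, smul_eq_mul, MulOpposite.smul_eq_mul_unop,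
        MulOpposite.unop_op, TrivSqZeroExt.fst_mul]
      ring

theorem XX_ee (x : ι → ℤ) (a : ℤ) (ha : x i₀ = a) : XX i₀ x a (ee i₀ a) = ee i₀ a := by
  apply TrivSqZeroExt.ext
  · simp [XX, ee]
  · simp [XX, ee, ha]

/-- **First direction**: a solution gives a retraction. -/
theorem retract_of_solution (a : ℤ) (x : ι → ℤ) (ha : x i₀ = a) (hF : eval x F = 0) :
    ∃ r : GG i₀ F →* GG i₀ F, r.range = Subgroup.closure (four i₀ F a) ∧
      ∀ h ∈ Subgroup.closure (four i₀ F a), r h = h := by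
  have hN : NN F ≤ (NN F).comap (XX i₀ x a).toAddMonoidHom := by
    rw [NN, AddSubgroup.zmultiples_le]
    change XX i₀ x a (TrivSqZeroExt.inl F) ∈ NN F
    have : XX i₀ x a (TrivSqZeroExt.inl F) = 0 := by
      apply TrivSqZeroExt.ext <;> simp [XX, hF]
    rw [this]
    exact (NN F).zero_mem
  set ρ := Hs.map (XX i₀ x a) hN with hρ
  set H : Subgroup (Hs (Aq ι) (NN F)) :=
    Subgroup.closure ((GG i₀ F).subtype '' (four i₀ F a)) with hH
  have hHG : H ≤ GG i₀ F := by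
    rw [hH, Subgroup.closure_le]
    rintro _ ⟨g, _, rfl⟩
    exact g.2
  have hp1 : p (NN F) 1 ∈ H := Subgroup.subset_closure
    ⟨pG i₀ F ⟨1, one_mem i₀ F⟩, by simp [four], rfl⟩
  have hq1 : q (NN F) 1 ∈ H := Subgroup.subset_closure
    ⟨qG i₀ F ⟨1, one_mem i₀ F⟩, by simp [four], rfl⟩
  have hpe : p (NN F) (ee i₀ a) ∈ H := Subgroup.subset_closure
    ⟨pG i₀ F ⟨ee i₀ a, ee_mem i₀ F a⟩, by simp [four], rfl⟩
  have hqe : q (NN F) (ee i₀ a) ∈ H := Subgroup.subset_closure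
    ⟨qG i₀ F ⟨ee i₀ a, ee_mem i₀ F a⟩, by simp [four], rfl⟩
  have hval : ∀ k, ∃ c d : ℤ, XX i₀ x a (El i₀ F k) = c • 1 + d • ee i₀ a := by
    intro k
    match k with
    | Sum.inl μ =>
      refine ⟨eval x (monomial μ.1 1), 0, ?_⟩
      apply TrivSqZeroExt.ext
      · simp [XX, El]
      · simp [XX, El]
    | Sum.inr 0 =>
      refine ⟨0, 1, ?_⟩
      apply TrivSqZeroExt.ext
      · simp [XX, El, ee]
      · simp [XX, El, ee]
    | Sum.inr 1 =>
      refine ⟨0, x i₀, ?_⟩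
      apply TrivSqZeroExt.ext
      · simp [XX, El, ee]
      · simp [XX, El, ee, mul_comm]
  have hρH : ∀ g ∈ GG i₀ F, ρ g ∈ H := by
    intro g hg
    refine GG_le_of i₀ F (H.comap ρ) ?_ ?_ hg
    · intro k
      obtain ⟨c, d, hcd⟩ := hval k
      rw [Subgroup.mem_comap, hρ, Hs.map_p, hcd, p_add, p_zsmul, p_zsmul]
      exact H.mul_mem (H.zpow_mem hp1 _) (H.zpow_mem hpe _)
    · intro k
      obtain ⟨c, d, hcd⟩ := hval k
      rw [Subgroup.mem_comap, hρ, Hs.map_q, hcd, q_add, q_zsmul, q_zsmul]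
      exact H.mul_mem (H.zpow_mem hq1 _) (H.zpow_mem hqe _)
  have hfix : ∀ g ∈ H, ρ g = g := by
    intro g hg
    induction hg using Subgroup.closure_induction with
    | mem y hy =>
      obtain ⟨g, hg, rfl⟩ := hy
      simp only [four, Set.mem_insert_iff, Set.mem_singleton_iff] at hg
      rcases hg with rfl | rfl | rfl | rfl
      · simp [hρ, pG]
      · simp [hρ, qG]
      · simp [hρ, pG, XX_ee i₀ x a ha]
      · simp [hρ, qG, XX_ee i₀ x a ha]
    | one => simp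
    | mul y z _ _ hy hz => rw [map_mul, hy, hz]
    | inv y _ hy => rw [map_inv, hy]
  let r : GG i₀ F →* GG i₀ F := (ρ.comp (GG i₀ F).subtype).codRestrict (GG i₀ F)
    (fun g => hHG (hρH g.1 g.2))
  have hmem : ∀ g : GG i₀ F, g ∈ Subgroup.closure (four i₀ F a) ↔ (g : Hs (Aq ι) (NN F)) ∈ H := by
    intro g
    rw [hH, ← MonoidHom.map_closure]
    constructor
    · intro hg
      exact ⟨g, hg, rfl⟩
    · rintro ⟨g', hg', h⟩
      have : g' = g := Subtype.ext h
      rwa [← this]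
  refine ⟨r, ?_, ?_⟩
  · ext g
    constructor
    · rintro ⟨g', rfl⟩
      rw [hmem]
      exact hρH g'.1 g'.2
    · intro hg
      refine ⟨g, Subtype.ext ?_⟩
      exact hfix _ ((hmem g).1 hg)
  · intro g hg
    exact Subtype.ext (hfix _ ((hmem g).1 hg))

end

end Pool.Agent.KS6_lead.Retract
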