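import Pool.Agent.KS6_lead.Retract.Back

set_option autoImplicit false

namespace Pool.Agent.KS6_lead.Retract

open MvPolynomial Hs

section

variable {ι : Type} [Fintype ι] [DecidableEq ι] (i₀ : ι) (F : MvPolynomial ι ℤ)

/-- generators as elements of the group -/
noncomputable def genG (k : Idx F ⊕ Idx F) : GG i₀ F := ⟨gen i₀ F k, Subgroup.subset_closure ⟨k, rfl⟩⟩

/-- the presentation map -/
noncomputable def phi (n : ℕ) (e : Fin n ≃ Idx F ⊕ Idx F) : FreeGroup (Fin n) →* GG i₀ F :=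
  FreeGroup.lift fun i => genG i₀ F (e i)

theorem phi_surj (n : ℕ) (e : Fin n ≃ Idx F ⊕ Idx F) : Function.Surjective (phi i₀ F n e) := by
  rw [← MonoidHom.range_eq_top, eq_top_iff]
  rintro ⟨g, hg⟩ -
  have key : ∀ g (hg : g ∈ GG i₀ F), (⟨g, hg⟩ : GG i₀ F) ∈ (phi i₀ F n e).range := by
    intro g hg
    unfold GG at hg
    induction hg using Subgroup.closure_induction with
    | mem x hx =>
      obtain ⟨k, rfl⟩ := hx
      refine ⟨FreeGroup.of (e.symm k), ?_⟩
      rw [phi, FreeGroup.lift_apply_of]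
      simp [genG]
    | one => exact Subgroup.one_mem _
    | mul x y hx hy h1 h2 =>
      exact Subgroup.mul_mem _ h1 h2
    | inv x hx h1 =>
      exact Subgroup.inv_mem _ h1
  exact key g hg

/-- the four words -/
def words {n : ℕ} (i1 j1 i2 j2 i3 j3 : Fin n) (a : ℕ) : List (List (Fin n × Bool)) :=
  [[(i1, true)], [(j1, true)],
    List.replicate (1 + 3 * a) (i2, true) ++ List.replicate 3 (i3, false),
    List.replicate (1 + 3 * a) (j2, true) ++ List.replicate 3 (j3, false)]

theorem computable_replicate {β : Type} [Primcodable β] (b : β) :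
    Primrec fun a : ℕ => List.replicate a b := by
  have : (fun a : ℕ => List.replicate a b) = fun a => (List.range a).map fun _ => b := by
    funext a
    simp
  rw [this]
  exact Primrec.list_map Primrec.list_range (Primrec.const b).to₂

theorem words_computable {n : ℕ} (i1 j1 i2 j2 i3 j3 : Fin n) :
    Computable (words i1 j1 i2 j2 i3 j3) := by
  apply Primrec.to_comp
  have h : ∀ i k : Fin n, Primrec fun a : ℕ => List.replicate (1 + 3 * a) (i, true) ++
      List.replicate 3 (k, false) := by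
    intro i k
    refine Primrec.list_append.comp ?_ (Primrec.const _)
    exact (computable_replicate (i, true)).comp (Primrec.nat_add.comp (Primrec.const 1)
      (Primrec.nat_mul.comp (Primrec.const 3) Primrec.id))
  unfold words
  refine Primrec.list_cons.comp (Primrec.const _) ?_
  refine Primrec.list_cons.comp (Primrec.const _) ?_
  refine Primrec.list_cons.comp (h _ _) ?_
  exact Primrec.list_cons.comp (h _ _) (Primrec.const _)

theorem genG_pow_p (a : ℕ) :
    genG i₀ F (Sum.inl (Sum.inr 0)) ^ (1 + 3 * a) * ((genG i₀ F (Sum.inl (Sum.inr 1)))⁻¹) ^ 3 =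
      pG i₀ F ⟨ee i₀ a, ee_mem i₀ F a⟩ := by
  apply Subtype.ext
  simp only [Subgroup.coe_mul, Subgroup.coe_pow, Subgroup.coe_inv, genG, gen, pG, El]
  rw [ee_eq, p_add, p_zsmul, p_zsmul]
  rw [← zpow_natCast, inv_pow, ← zpow_natCast, ← zpow_neg]
  push_cast
  rfl

theorem genG_pow_q (a : ℕ) :
    genG i₀ F (Sum.inr (Sum.inr 0)) ^ (1 + 3 * a) * ((genG i₀ F (Sum.inr (Sum.inr 1)))⁻¹) ^ 3 =
      qG i₀ F ⟨ee i₀ a, ee_mem i₀ F a⟩ := by
  apply Subtype.ext
  simp only [Subgroup.coe_mul, Subgroup.coe_pow, Subgroup.coe_inv, genG, gen, qG, El]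
  rw [ee_eq, q_add, q_zsmul, q_zsmul]
  rw [← zpow_natCast, inv_pow, ← zpow_natCast, ← zpow_neg]
  push_cast
  rfl

theorem words_eq (n : ℕ) (e : Fin n ≃ Idx F ⊕ Idx F) (a : ℕ) :
    {g : GG i₀ F | ∃ w ∈ words (e.symm (Sum.inl (Sum.inl ⟨0, by simp⟩)))
      (e.symm (Sum.inr (Sum.inl ⟨0, by simp⟩))) (e.symm (Sum.inl (Sum.inr 0)))
      (e.symm (Sum.inr (Sum.inr 0))) (e.symm (Sum.inl (Sum.inr 1)))
      (e.symm (Sum.inr (Sum.inr 1))) a, phi i₀ F n e (FreeGroup.mk w) = g} =
    four i₀ F a := by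
  have h1 : ∀ k b, phi i₀ F n e (FreeGroup.mk [(e.symm k, b)]) =
      cond b (genG i₀ F k) (genG i₀ F k)⁻¹ := by
    intro k b
    rw [phi, FreeGroup.lift_mk]
    simp
  have h2 : ∀ k l, phi i₀ F n e (FreeGroup.mk (List.replicate (1 + 3 * a) (e.symm k, true) ++
      List.replicate 3 (e.symm l, false))) =
      genG i₀ F k ^ (1 + 3 * a) * ((genG i₀ F l)⁻¹) ^ 3 := by
    intro k l
    rw [phi, FreeGroup.lift_mk]
    rw [List.map_append, List.prod_append, List.map_replicate, List.prod_replicate,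
      List.map_replicate, List.prod_replicate]
    simp
  ext g
  simp only [words, four, List.mem_cons, List.not_mem_nil, or_false, Set.mem_ofPred_eq,
    exists_eq_or_imp, exists_eq_left, Set.mem_insert_iff, Set.mem_singleton_iff, h1, h2,
    cond_true, genG_pow_p, genG_pow_q]
  have h3 : genG i₀ F (Sum.inl (Sum.inl ⟨0, by simp⟩)) = pG i₀ F ⟨1, one_mem i₀ F⟩ := by
    apply Subtype.ext
    simp [genG, gen, pG, El]
  have h4 : genG i₀ F (Sum.inr (Sum.inl ⟨0, by simp⟩)) = qG i₀ F ⟨1, one_mem i₀ F⟩ := by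
    apply Subtype.ext
    simp [genG, gen, qG, El]
  rw [h3, h4]
  tauto

end

/-- **Main theorem.** -/
theorem main :
    ∃ (G : Type) (_ : Group G), Group.IsNilpotent G ∧
      ∃ (n : ℕ) (φ : FreeGroup (Fin n) →* G), Function.Surjective φ ∧
        ¬ ComputablePred (fun L : List (List (Fin n × Bool)) =>
          ∃ r : G →* G,
            r.range = Subgroup.closure {g : G | ∃ w ∈ L, φ (FreeGroup.mk w) = g} ∧
            ∀ h ∈ Subgroup.closure {g : G | ∃ w ∈ L, φ (FreeGroup.mk w) = g}, r h = h) := by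
  obtain ⟨S, ι, _, _, i₀, F, hS, ⟨n0, hn0⟩, hF⟩ := exists_family
  have hex : ∃ x : ι → ℤ, eval x F = 0 := by
    obtain ⟨x, -, h⟩ := (hF n0).1 hn0
    exact ⟨x, h⟩
  have : Group.IsNilpotent (Hs (Aq ι) (NN F)) := nilp
  refine ⟨GG i₀ F, inferInstance, inferInstance, Fintype.card (Idx F ⊕ Idx F),
    phi i₀ F _ (Fintype.equivFin _).symm, phi_surj i₀ F _ _, ?_⟩
  intro hcomp
  apply hS
  set e := (Fintype.equivFin (Idx F ⊕ Idx F)).symm with he
  have hred : ManyOneReducible S (fun L : List (List (Fin (Fintype.card (Idx F ⊕ Idx F)) × Bool)) =>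
      ∃ r : GG i₀ F →* GG i₀ F,
        r.range = Subgroup.closure {g | ∃ w ∈ L, phi i₀ F _ e (FreeGroup.mk w) = g} ∧
        ∀ h ∈ Subgroup.closure {g | ∃ w ∈ L, phi i₀ F _ e (FreeGroup.mk w) = g}, r h = h) := by
    refine ⟨_, words_computable (e.symm (Sum.inl (Sum.inl ⟨0, by simp⟩)))
      (e.symm (Sum.inr (Sum.inl ⟨0, by simp⟩))) (e.symm (Sum.inl (Sum.inr 0)))
      (e.symm (Sum.inr (Sum.inr 0))) (e.symm (Sum.inl (Sum.inr 1)))
      (e.symm (Sum.inr (Sum.inr 1))), fun a => ?_⟩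
    beta_reduce
    rw [words_eq, hF]
    constructor
    · rintro ⟨x, hx, hx'⟩
      exact retract_of_solution i₀ F a x hx hx'
    · rintro ⟨r, hr, hr'⟩
      exact solution_of_retract i₀ F a hex r hr hr'
  exact ComputablePred.computable_of_manyOneReducible hred hcomp

end Pool.Agent.KS6_lead.Retract
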